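import Pool.Agent.TH230.EL.Lead0

set_option autoImplicit false

namespace Pool.Agent.TH230.EL

open MvPolynomial Pool.Agent.TH603.EL

variable {F : Type} [Field F]

theorem theta_coeff_single (ρ a : ℝ) (l : ZMod 3) (p : ℤ)
    (h : ∀ i : ℤ, ((i : ZMod 3) = l ∧ ex ρ i = a) ↔ i = p) :
    (theta F ρ l).coeff a = AddMonoidAlgebra.single (p, 0) 1 := by
  classical
  ext ⟨i, j⟩
  have h1 := cf_theta (F := F) ρ l a i j
  unfold cf at h1
  rw [h1, AddMonoidAlgebra.coeff_single, Finsupp.single_apply]
  by_cases hij : i = p ∧ j = 0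
  · obtain ⟨rfl, rfl⟩ := hij
    have := (h i).2 rfl
    rw [if_pos ⟨rfl, this.1, this.2⟩, if_pos rfl]
  · rw [if_neg, if_neg]
    · intro h2
      apply hij
      have h3 := congrArg Prod.fst h2
      have h4 := congrArg Prod.snd h2
      exact ⟨h3.symm, h4.symm⟩
    · rintro ⟨h2, h3, h4⟩
      exact hij ⟨(h i).1 ⟨h3, h4⟩, h2⟩

theorem theta_coeff_zero (ρ a : ℝ) (l : ZMod 3)
    (h : ∀ i : ℤ, (i : ZMod 3) = l → ex ρ i ≠ a) :
    (theta F ρ l).coeff a = 0 := by
  classical
  ext ⟨i, j⟩
  have h1 := cf_theta (F := F) ρ l a i j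
  unfold cf at h1
  rw [h1, if_neg]
  · simp
  · rintro ⟨_, h3, h4⟩
    exact h i h3 h4

theorem two_ex (ρ : ℝ) (i : ℤ) : 2 * ex ρ i = (i : ℝ) * (i - 1) + 2 * i * ρ := by
  unfold ex
  have h2 : (2 * ee i : ℝ) = i * (i - 1) := by exact_mod_cast two_ee i
  linarith

theorem ex0 (i : ℤ) : ex 0 i = 0 ↔ i = 0 ∨ i = 1 := by
  have h := two_ex 0 i
  constructor
  · intro h0
    rw [h0] at h
    have h1 : (i : ℝ) * (i - 1) = 0 := by linarith
    rcases mul_eq_zero.1 h1 with h2 | h2
    · left; exact_mod_cast h2
    · right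
      have h3 : (i : ℝ) = 1 := by linarith
      exact_mod_cast h3
  · rintro (rfl | rfl)
    · norm_num at h; linarith
    · norm_num at h; linarith

theorem ex1 (i : ℤ) : ex 1 i = 0 ↔ i = 0 ∨ i = -1 := by
  have h := two_ex 1 i
  constructor
  · intro h0
    rw [h0] at h
    have h1 : (i : ℝ) * (i + 1) = 0 := by linarith
    rcases mul_eq_zero.1 h1 with h2 | h2
    · left; exact_mod_cast h2
    · right
      have h3 : (i : ℝ) = -1 := by linarith
      exact_mod_cast h3
  · rintro (rfl | rfl)
    · norm_num at h; linarith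
    · norm_num at h; linarith

theorem ex2 (i : ℤ) : ex 2 i = -1 ↔ i = -1 ∨ i = -2 := by
  have h := two_ex 2 i
  constructor
  · intro h0
    rw [h0] at h
    have h1 : ((i : ℝ) + 1) * (i + 2) = 0 := by linarith
    rcases mul_eq_zero.1 h1 with h2 | h2
    · left
      have h3 : (i : ℝ) = -1 := by linarith
      exact_mod_cast h3
    · right
      have h3 : (i : ℝ) = -2 := by linarith
      exact_mod_cast h3
  · rintro (rfl | rfl)
    · norm_num at h; linarith
    · norm_num at h; linarith

theorem low_theta_two (l : ZMod 3) : Low (theta F 2 l) (-1) := by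
  intro a ha
  apply theta_coeff_zero
  intro i _ h
  have h1 := two_ex 2 i
  rw [h] at h1
  have h2 : (0 : ℤ) ≤ (i + 1) * (i + 2) := by
    rcases le_or_gt (-1) i with h3 | h3
    · exact mul_nonneg (by omega) (by omega)
    · exact mul_nonneg_of_nonpos_of_nonpos (by omega) (by omega)
  have h3 : (0 : ℝ) ≤ ((i : ℝ) + 1) * (i + 2) := by exact_mod_cast h2
  nlinarith

/-- exponents of the leading terms -/
def pp (a b c : ℤ) (l : ZMod 3) : ℤ := if l = 0 then a else if l = 1 then b else c

theorem pp0 (a b c : ℤ) : pp a b c 0 = a := rfl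
theorem pp1 (a b c : ℤ) : pp a b c 1 = b := rfl
theorem pp2 (a b c : ℤ) : pp a b c 2 = c := rfl

theorem noncancel' {m : ℕ} {g : MvPolynomial (ZMod 3) (HK F)} (hg : g.IsHomogeneous m)
    (hred : Red g) {b : ℝ} {α : ZMod 3 →₀ ℕ} (hlow : ∀ β, Low (g.coeff β) b)
    (hα : (g.coeff α).coeff b ≠ 0) {τ : ℝ} (h0 : 0 ≤ τ) (h1 : τ ≤ 1)
    (hsc : ∀ (τ s a : ℝ) (i j : ℤ),
      cf (ev (theta F (τ + s)) g) (a + s * i) i j = cf (ev (theta F τ) g) a i j) :
    ∃ (a : ℝ) (i : ℤ), a ≤ b + 3 * m ∧ cf (ev (theta F τ) g) a i 0 ≠ 0 := by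
  have hαs : α ∈ g.support := by
    rw [mem_support_iff]
    intro h
    rw [h] at hα
    exact hα rfl
  have hdeg : ∀ β ∈ g.support, β 0 + β 1 + β 2 = m := by
    intro β hβ
    have h2 := hg (mem_support_iff.1 hβ)
    rw [Finsupp.weight_apply, Finsupp.sum_fintype _ _ (by simp)] at h2
    rw [← h2]
    simp only [smul_eq_mul, Pi.one_apply, mul_one]
    exact (Fin.sum_univ_three (f := fun l : Fin 3 => β (l : ZMod 3))).symm
  have hsum : ∀ (β : ZMod 3 →₀ ℕ) (p : ZMod 3 → ℤ),
      ∑ l, (β l : ℤ) * p l = β 0 * p 0 + β 1 * p 1 + β 2 * p 2 := fun β p =>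
    Fin.sum_univ_three (f := fun l : Fin 3 => (β (l : ZMod 3) : ℤ) * p l)
  have hext : ∀ β : ZMod 3 →₀ ℕ, β 0 = α 0 → β 1 = α 1 → β 2 = α 2 → β = α := by
    intro β e0 e1 e2
    ext l
    fin_cases l
    · exact e0
    · exact e1
    · exact e2
  have hdα := hdeg α hαs
  have hmR : (0 : ℝ) ≤ m := Nat.cast_nonneg m
  obtain ⟨l, hl⟩ := hred α hαs
  have hcases : ∀ l : ZMod 3, l = 2 ∨ l = 1 ∨ l = 0 := by decide
  rcases hcases l with rfl | rfl | rfl
  · -- radius 0
    have key := lead_cf (c := 0) hg hlow (X := theta F 0) (fun l => low_theta le_rfl zero_le_one l)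
      (p := pp 0 1 0) (l0 := 2) ?_ ?_ hl ?_
    · have h3 := hsc 0 τ (b + m * 0) (∑ l, (α l : ℤ) * pp 0 1 0 l) 0
      rw [zero_add] at h3
      rw [key] at h3
      refine ⟨_, _, ?_, by rw [h3]; exact hα⟩
      rw [hsum]
      have e : ((α 0 : ℤ) * pp 0 1 0 0 + α 1 * pp 0 1 0 1 + α 2 * pp 0 1 0 2) = α 1 := by
        rw [pp0, pp1, pp2]
        ring
      rw [e]
      have h4 : (α 1 : ℝ) ≤ m := by exact_mod_cast (by omega : α 1 ≤ m)
      have h5 : (0 : ℝ) ≤ α 1 := Nat.cast_nonneg _
      push_cast
      nlinarith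
    · apply theta_coeff_zero
      intro i hi h
      rcases (ex0 i).1 h with rfl | rfl
      · exact absurd hi (by decide)
      · exact absurd hi (by decide)
    · intro l hl
      have : l = 0 ∨ l = 1 := by revert l; decide
      rcases this with rfl | rfl
      · apply theta_coeff_single
        intro i
        rw [ex0]
        constructor
        · rintro ⟨h2, rfl | rfl⟩
          · rfl
          · exact absurd h2 (by decide)
        · intro h
          have h' : i = 0 := h
          subst h'
          exact ⟨by decide, Or.inl rfl⟩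
      · apply theta_coeff_single
        intro i
        rw [ex0]
        constructor
        · rintro ⟨h2, rfl | rfl⟩
          · exact absurd h2 (by decide)
          · rfl
        · intro h
          have h' : i = 1 := h
          subst h'
          exact ⟨by decide, Or.inr rfl⟩
    · intro β hβ hβ0 hs
      rw [hsum, hsum] at hs
      rw [pp0, pp1, pp2] at hs
      have hdβ := hdeg β hβ
      apply hext <;> omega
  · -- radius 1
    have key := lead_cf (c := 0) hg hlow (X := theta F 1) (fun l => low_theta zero_le_one le_rfl l)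
      (p := pp 0 0 (-1)) (l0 := 1) ?_ ?_ hl ?_
    · have h3 := hsc 1 (τ - 1) (b + m * 0) (∑ l, (α l : ℤ) * pp 0 0 (-1) l) 0
      rw [add_sub_cancel] at h3
      rw [key] at h3
      refine ⟨_, _, ?_, by rw [h3]; exact hα⟩
      rw [hsum]
      have e : ((α 0 : ℤ) * pp 0 0 (-1) 0 + α 1 * pp 0 0 (-1) 1 + α 2 * pp 0 0 (-1) 2) =
          -α 2 := by
        rw [pp0, pp1, pp2]
        ring
      rw [e]
      have h4 : (α 2 : ℝ) ≤ m := by exact_mod_cast (by omega : α 2 ≤ m)
      have h5 : (0 : ℝ) ≤ α 2 := Nat.cast_nonneg _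
      push_cast
      nlinarith
    · apply theta_coeff_zero
      intro i hi h
      rcases (ex1 i).1 h with rfl | rfl
      · exact absurd hi (by decide)
      · exact absurd hi (by decide)
    · intro l hl
      have : l = 0 ∨ l = 2 := by revert l; decide
      rcases this with rfl | rfl
      · apply theta_coeff_single
        intro i
        rw [ex1]
        constructor
        · rintro ⟨h2, rfl | rfl⟩
          · rfl
          · exact absurd h2 (by decide)
        · intro h
          have h' : i = 0 := h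
          subst h'
          exact ⟨by decide, Or.inl rfl⟩
      · apply theta_coeff_single
        intro i
        rw [ex1]
        constructor
        · rintro ⟨h2, rfl | rfl⟩
          · exact absurd h2 (by decide)
          · rfl
        · intro h
          have h' : i = -1 := h
          subst h'
          exact ⟨by decide, Or.inr rfl⟩
    · intro β hβ hβ0 hs
      rw [hsum, hsum] at hs
      rw [pp0, pp1, pp2] at hs
      have hdβ := hdeg β hβ
      apply hext <;> omega
  · -- radius 2
    have key := lead_cf (c := -1) hg hlow (X := theta F 2) (fun l => low_theta_two l)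
      (p := pp 0 (-2) (-1)) (l0 := 0) ?_ ?_ hl ?_
    · have h3 := hsc 2 (τ - 2) (b + m * -1) (∑ l, (α l : ℤ) * pp 0 (-2) (-1) l) 0
      rw [add_sub_cancel] at h3
      rw [key] at h3
      refine ⟨_, _, ?_, by rw [h3]; exact hα⟩
      rw [hsum]
      have e : ((α 0 : ℤ) * pp 0 (-2) (-1) 0 + α 1 * pp 0 (-2) (-1) 1 +
          α 2 * pp 0 (-2) (-1) 2) = -(m : ℤ) - α 1 := by
        rw [pp0, pp1, pp2]
        have h6 : (α 0 : ℤ) + α 1 + α 2 = m := by exact_mod_cast hdα
        have h7 : (α 0 : ℤ) = 0 := by exact_mod_cast hl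
        linarith
      rw [e]
      have h4 : (α 1 : ℝ) ≤ m := by exact_mod_cast (by omega : α 1 ≤ m)
      have h5 : (0 : ℝ) ≤ α 1 := Nat.cast_nonneg _
      push_cast
      nlinarith
    · apply theta_coeff_zero
      intro i hi h
      rcases (ex2 i).1 h with rfl | rfl
      · exact absurd hi (by decide)
      · exact absurd hi (by decide)
    · intro l hl
      have : l = 1 ∨ l = 2 := by revert l; decide
      rcases this with rfl | rfl
      · apply theta_coeff_single
        intro i
        rw [ex2]
        constructor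
        · rintro ⟨h2, rfl | rfl⟩
          · exact absurd h2 (by decide)
          · rfl
        · intro h
          have h' : i = -2 := h
          subst h'
          exact ⟨by decide, Or.inr rfl⟩
      · apply theta_coeff_single
        intro i
        rw [ex2]
        constructor
        · rintro ⟨h2, rfl | rfl⟩
          · rfl
          · exact absurd h2 (by decide)
        · intro h
          have h' : i = -1 := h
          subst h'
          exact ⟨by decide, Or.inl rfl⟩
    · intro β hβ hβ0 hs
      rw [hsum, hsum] at hs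
      rw [pp0, pp1, pp2] at hs
      have hdβ := hdeg β hβ
      apply hext <;> omega

end Pool.Agent.TH230.EL
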