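import Pool.Agent.TH603.EL.Low

set_option autoImplicit false

namespace Pool.Agent.TH230.EL

open MvPolynomial Pool.Agent.TH603.EL

section gen
variable {B : Type} [CommRing B]

theorem low_prod_pow {κ : Type*} (s : Finset κ) (Y : κ → HahnSeries ℝ B) (c : ℝ) (n : κ → ℕ)
    (h : ∀ k ∈ s, Low (Y k) c) :
    Low (∏ k ∈ s, Y k ^ n k) (((∑ k ∈ s, n k : ℕ) : ℝ) * c) ∧
      (∏ k ∈ s, Y k ^ n k).coeff (((∑ k ∈ s, n k : ℕ) : ℝ) * c) = ∏ k ∈ s, (Y k).coeff c ^ n k := by
  classical
  induction s using Finset.induction_on with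
  | empty => simpa using low_one
  | insert a s ha ih =>
    obtain ⟨h1, h2⟩ := ih fun k hk => h k (Finset.mem_insert_of_mem hk)
    have h3 := (h a (Finset.mem_insert_self _ _)).pow (n a)
    have h4 := (h a (Finset.mem_insert_self _ _)).coeff_pow (n a)
    rw [Finset.prod_insert ha, Finset.prod_insert ha, Finset.sum_insert ha]
    have e : (((n a + ∑ k ∈ s, n k : ℕ) : ℝ) * c) = n a * c + ((∑ k ∈ s, n k : ℕ) : ℝ) * c := by
      push_cast; ring
    rw [e]
    exact ⟨h3.mul h1, by rw [h3.coeff_mul h1, h4, h2]⟩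

end gen

variable {F : Type} [Field F]

theorem incl_coeff (c : HK F) (a : ℝ) :
    (incl c).coeff a = AddMonoidAlgebra.single (0 : ℤ × ℤ) (c.coeff a) := rfl

/-- the leading coefficient if two of the variables dominate and have monomials as leading
coefficients -/
theorem lead_cf {m : ℕ} {g : MvPolynomial (ZMod 3) (HK F)} (hg : g.IsHomogeneous m) {b c : ℝ}
    (hlow : ∀ β, Low (g.coeff β) b) {X : ZMod 3 → HR F} (hX : ∀ l, Low (X l) c) {p : ZMod 3 → ℤ}
    {l0 : ZMod 3} (h0 : (X l0).coeff c = 0)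
    (hp : ∀ l, l ≠ l0 → (X l).coeff c = AddMonoidAlgebra.single (p l, 0) 1)
    {α : ZMod 3 →₀ ℕ} (hα0 : α l0 = 0)
    (hinj : ∀ β ∈ g.support, β l0 = 0 → ∑ l, (β l : ℤ) * p l = ∑ l, (α l : ℤ) * p l → β = α) :
    cf (ev X g) (b + m * c) (∑ l, (α l : ℤ) * p l) 0 = (g.coeff α).coeff b := by
  classical
  have hprod : ∀ β : ZMod 3 →₀ ℕ, β l0 = 0 → (∏ l, (X l).coeff c ^ β l) =
      AddMonoidAlgebra.single (∑ l, (β l : ℤ) * p l, (0 : ℤ)) 1 := by
    intro β hβ
    have h1 : ∀ l ∈ (Finset.univ : Finset (ZMod 3)), (X l).coeff c ^ β l =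
        AddMonoidAlgebra.single (((β l : ℤ) * p l, (0 : ℤ)) : ℤ × ℤ) (1 : F) := by
      intro l _
      by_cases hl : l = l0
      · subst hl
        rw [hβ, pow_zero]
        simp only [AddMonoidAlgebra.one_def, Nat.cast_zero, zero_mul]
        rfl
      · rw [hp l hl, AddMonoidAlgebra.single_pow, one_pow]
        have : (β l) • ((p l, 0) : ℤ × ℤ) = ((β l : ℤ) * p l, 0) := by
          ext <;> simp
        rw [this]
    rw [Finset.prod_congr rfl h1, AddMonoidAlgebra.prod_single, Finset.prod_const_one]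
    have h2 : ∑ l, (((β l : ℤ) * p l, (0 : ℤ)) : ℤ × ℤ) = (∑ l, (β l : ℤ) * p l, 0) := by
      ext
      · rw [Prod.fst_sum]
      · rw [Prod.snd_sum]; simp
    rw [h2]
  have hprod0 : ∀ β : ZMod 3 →₀ ℕ, β l0 ≠ 0 → (∏ l, (X l).coeff c ^ β l) = 0 := by
    intro β hβ
    apply Finset.prod_eq_zero (Finset.mem_univ l0)
    rw [h0, zero_pow hβ]
  have hcoef : (ev X g).coeff (b + m * c) = ∑ β ∈ g.support,
      AddMonoidAlgebra.single (0 : ℤ × ℤ) ((g.coeff β).coeff b) * ∏ l, (X l).coeff c ^ β l := by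
    unfold ev
    rw [coe_eval₂Hom, eval₂_eq', HahnSeries.coeff_sum]
    apply Finset.sum_congr rfl
    intro β hβ
    have hdeg : ∑ l, β l = m := by
      have := hg (mem_support_iff.1 hβ)
      rw [← this, Finsupp.weight_apply, Finsupp.sum_fintype _ _ (by simp)]
      simp
    obtain ⟨h1, h2⟩ := low_prod_pow (Finset.univ : Finset (ZMod 3)) X c β fun l _ => hX l
    rw [hdeg] at h1 h2
    rw [(hlow β).incl.coeff_mul h1, h2, incl_coeff]
  unfold cf
  rw [hcoef, AddMonoidAlgebra.coeff_sum, Finsupp.finsetSum_apply]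
  rw [Finset.sum_eq_single α]
  · rw [hprod α hα0, AddMonoidAlgebra.single_mul_single]
    simp
  · intro β hβ hne
    by_cases hβ0 : β l0 = 0
    · rw [hprod β hβ0, AddMonoidAlgebra.single_mul_single]
      have h3 : ∑ l, (β l : ℤ) * p l ≠ ∑ l, (α l : ℤ) * p l := fun h => hne (hinj β hβ hβ0 h)
      rw [AddMonoidAlgebra.coeff_single, Finsupp.single_apply, if_neg]
      intro h
      apply h3
      have := congrArg Prod.fst h
      simpa using this
    · rw [hprod0 β hβ0, mul_zero]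
      simp
  · intro hα
    rw [notMem_support_iff.1 hα]
    simp

end Pool.Agent.TH230.EL
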